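import Pool.Graph.R_pool_sql_team_seeded_f72693b1.W492.MT.Defs

/-!
# Truncation functors commute with t-exact functors
-/

set_option linter.unusedSectionVars false
set_option linter.style.haveILetI false

open CategoryTheory Limits Triangulated Pretriangulated

namespace Pool.Agent.H939.PD

open Pool.Agent.W492.MT

universe v u v' u' w

variable {T : Type u} [Category.{v} T] [HasZeroObject T] [HasShift T ℤ] [Preadditive T]
  [∀ n : ℤ, (shiftFunctor T n).Additive] [Pretriangulated T] [IsTriangulated T]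
  {D : Type u'} [Category.{v'} D] [HasZeroObject D] [HasShift D ℤ] [Preadditive D]
  [∀ n : ℤ, (shiftFunctor D n).Additive] [Pretriangulated D] [IsTriangulated D]
  (R : T ⥤ D) [R.CommShift ℤ] [R.IsTriangulated] {t : TStructure T} {s : TStructure D}

theorem nonempty_truncLE_iso (h : TExact t s R) (n : ℤ) :
    Nonempty (t.truncLE n ⋙ R ≅ R ⋙ s.truncLE n) := by
  let a : (t.truncLE n ⋙ R) ⋙ s.truncLE n ⟶ t.truncLE n ⋙ R :=
    Functor.whiskerLeft (t.truncLE n ⋙ R) (s.truncLEι n)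
  let b : (t.truncLE n ⋙ R) ⋙ s.truncLE n ⟶ R ⋙ s.truncLE n :=
    Functor.whiskerRight (Functor.whiskerRight (t.truncLEι n) R) (s.truncLE n)
  have ha : ∀ M, IsIso (a.app M) := fun M => by
    have h1 : s.IsLE (R.obj ((t.truncLE n).obj M)) n :=
      ⟨(h n _).1 (t.isLE_truncLE_obj M n n).le⟩
    exact (inferInstance : IsIso ((s.truncLEι n).app (R.obj ((t.truncLE n).obj M))))
  have hb : ∀ M, IsIso (b.app M) := fun M => by
    have h1 := R.map_distinguished _ (t.triangleLEGT_distinguished n M)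
    have h2 : s.IsGE (R.obj ((t.truncGT n).obj M)) (n + 1) :=
      ⟨(h (n + 1) _).2 (t.isGE_truncGT_obj M n (n + 1)).ge⟩
    exact s.isIso₁_truncLE_map_of_isGE _ h1 n (n + 1) rfl h2
  have ha' : IsIso a := NatIso.isIso_of_isIso_app a
  have hb' : IsIso b := NatIso.isIso_of_isIso_app b
  exact ⟨(asIso a).symm ≪≫ asIso b⟩

theorem nonempty_truncGE_iso (h : TExact t s R) (n : ℤ) :
    Nonempty (t.truncGE n ⋙ R ≅ R ⋙ s.truncGE n) := by
  let a : t.truncGE n ⋙ R ⟶ (t.truncGE n ⋙ R) ⋙ s.truncGE n :=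
    Functor.whiskerLeft (t.truncGE n ⋙ R) (s.truncGEπ n)
  let b : R ⋙ s.truncGE n ⟶ (t.truncGE n ⋙ R) ⋙ s.truncGE n :=
    Functor.whiskerRight (Functor.whiskerRight (t.truncGEπ n) R) (s.truncGE n)
  have ha : ∀ M, IsIso (a.app M) := fun M => by
    have h1 : s.IsGE (R.obj ((t.truncGE n).obj M)) n :=
      ⟨(h n _).2 (t.isGE_truncGE_obj M n n).ge⟩
    exact (inferInstance : IsIso ((s.truncGEπ n).app (R.obj ((t.truncGE n).obj M))))
  have hb : ∀ M, IsIso (b.app M) := fun M => by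
    have h1 := R.map_distinguished _ (t.triangleLTGE_distinguished n M)
    have h2 : s.IsLE (R.obj ((t.truncLT n).obj M)) (n - 1) :=
      ⟨(h (n - 1) _).1 (t.isLE_truncLT_obj M n (n - 1)).le⟩
    exact s.isIso₂_truncGE_map_of_isLE _ h1 (n - 1) n (by ring) h2
  have ha' : IsIso a := NatIso.isIso_of_isIso_app a
  have hb' : IsIso b := NatIso.isIso_of_isIso_app b
  exact ⟨asIso a ≪≫ (asIso b).symm⟩

theorem nonempty_truncGELE_iso (h : TExact t s R) (m n : ℤ) :
    Nonempty (t.truncGELE m n ⋙ R ≅ R ⋙ s.truncGELE m n) := by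
  obtain ⟨e1⟩ := nonempty_truncLE_iso R h n
  obtain ⟨e2⟩ := nonempty_truncGE_iso R h m
  exact ⟨Functor.associator _ _ _ ≪≫ Functor.isoWhiskerLeft (t.truncLE n) e2 ≪≫
    (Functor.associator _ _ _).symm ≪≫ Functor.isoWhiskerRight e1 (s.truncGE m) ≪≫
    Functor.associator _ _ _⟩

end Pool.Agent.H939.PD
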