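import Pool.Graph.R_pool_sql_team_seeded_f72693b1.W492.PC.Fin
import Pool.Agent.H939.PD.Trunc

/-!
# From one prime to all primes
-/

set_option linter.unusedSectionVars false
set_option linter.style.haveILetI false

open CategoryTheory Limits MonoidalCategory Triangulated Pretriangulated ZeroObject

namespace Pool.Agent.H939.PD

open Pool.Agent.W492 Pool.Agent.W492.MT

universe v u v' u' w

section Biprod

variable {T : Type u} [Category.{v} T] [Preadditive T] [HasBinaryBiproducts T]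

theorem IsSum.mono {𝒬 𝒬' : ObjectProperty T} (h : ∀ X, 𝒬 X → 𝒬' X) :
    ∀ (n : ℕ) (X : T), IsSum 𝒬 n X → IsSum 𝒬' n X
  | 0, _, hX => hX
  | n + 1, _, ⟨A, B, hA, hB, e⟩ => ⟨A, B, h A hA, IsSum.mono h n B hB, e⟩

end Biprod

variable {T : Type u} [Category.{v} T] [HasZeroObject T] [HasShift T ℤ] [Preadditive T]
  [∀ n : ℤ, (shiftFunctor T n).Additive] [Pretriangulated T] [IsTriangulated T]
  [IsIdempotentComplete T]
  [MonoidalCategory T] [SymmetricCategory T] [RightRigidCategory T]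
  [∀ X : T, (tensorLeft X).CommShift ℤ] [∀ X : T, (tensorLeft X).IsTriangulated]
  [MonoidalPreadditive T]
  {I : Type w} {D : I → Type u'} [∀ i, Category.{v'} (D i)]
  [∀ i, HasZeroObject (D i)]
  [∀ i, HasShift (D i) ℤ] [∀ i, Preadditive (D i)]
  [∀ i, ∀ n : ℤ, (shiftFunctor (D i) n).Additive] [∀ i, Pretriangulated (D i)]
  [∀ i, IsTriangulated (D i)] [∀ i, MonoidalCategory (D i)] [∀ i, MonoidalPreadditive (D i)]
  {R : ∀ i, T ⥤ D i} [∀ i, (R i).CommShift ℤ] [∀ i, (R i).IsTriangulated]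
  [∀ i, (R i).Monoidal] {s : ∀ i, TStructure (D i)}
  {F : Type} [Field F] [CharZero F] [Linear F T] [MonoidalLinear F T]
  {𝒞 : ObjectProperty T}

variable (R s 𝒞) in
/-- The property of a Chow motive to have its realisation in one degree is independent of the
realisation. -/
def Indep : Prop :=
  ∀ (X : T) (d : ℤ) (i j : I), 𝒞 X → (s i).le d ((R i).obj X) → (s i).ge d ((R i).obj X) →
    (s j).le d ((R j).obj X) ∧ (s j).ge d ((R j).obj X)

theorem inDeg_of_one (hind : Indep R s 𝒞) (i : I) {X : T} {d : ℤ} (hX : 𝒞 X)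
    (h : InDeg (fun _ : PUnit.{w + 1} => R i) (fun _ => s i) d X) : InDeg R s d X :=
  ⟨fun j => (hind X d i j hX (h.1 ⟨⟩) (h.2 ⟨⟩)).1, fun j => (hind X d i j hX (h.1 ⟨⟩) (h.2 ⟨⟩)).2⟩

theorem inDeg_one (i : I) {X : T} {d : ℤ} (h : InDeg R s d X) :
    InDeg (fun _ : PUnit.{w + 1} => R i) (fun _ => s i) d X :=
  ⟨fun _ => h.1 i, fun _ => h.2 i⟩

theorem setup_one (h : Setup R s 𝒞 F) (hind : Indep R s 𝒞) (i : I) :
    Setup (fun _ : PUnit.{w + 1} => R i) (fun _ => s i) 𝒞 F where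
  scalar := h.scalar
  bounded _ := h.bounded i
  tensorExact _ := h.tensorExact i
  unit_ne _ := h.unit_ne i
  unit_simple _ := h.unit_simple i
  oddFinite W _ := h.oddFinite W i
  one_mem := h.one_mem
  tensor_mem := h.tensor_mem
  dual_mem := h.dual_mem
  sum_mem := h.sum_mem
  retract_mem := h.retract_mem
  orth := h.orth
  gen := h.gen
  dual_deg X d hX hd := inDeg_one i (h.dual_deg X d hX (inDeg_of_one hind i hX hd))
  finRank := h.finRank
  trNil := h.trNil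

theorem lefschetz_one (hL : Lefschetz R s 𝒞) (i : I) :
    Lefschetz (fun _ : PUnit.{w + 1} => R i) (fun _ => s i) 𝒞 := fun X hX => by
  obtain ⟨V, c, h1, h2, h3⟩ := hL X hX
  refine ⟨V, c, h1, h2, fun m => ?_⟩
  obtain ⟨J, J', φ, h4, h5, h6⟩ := h3 m
  exact ⟨J, J', φ, inDeg_one i h4, h5, fun _ => h6 i⟩

/-- one prime suffices. -/
theorem all_of_one (h : Setup R s 𝒞 F) (hL : Lefschetz R s 𝒞) (hind : Indep R s 𝒞)
    (hone : ∃ (i : I) (t : TStructure T), NonDegenerate t ∧ TensorExact t ∧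
      TExact t (s i) (R i)) :
    ∃ t : TStructure T, NonDegenerate t ∧ TensorExact t ∧ ∀ i, TExact t (s i) (R i) := by
  obtain ⟨i, t, h1, h2, h3⟩ := hone
  have key1 := (PC.general_criterion (setup_one h hind i) (lefschetz_one hL i)).out 0 1
  have h0 : ∃ t : TStructure T, NonDegenerate t ∧ TensorExact t ∧
      ∀ _ : PUnit.{w + 1}, TExact t (s i) (R i) := ⟨t, h1, h2, fun _ => h3⟩
  obtain ⟨hK, hX⟩ := key1.1 h0
  have : Nonempty I := ⟨i⟩
  have key2 := (PC.general_criterion h hL).out 0 1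
  refine key2.2 ⟨fun X hX' => ?_, fun X d hX' hd => hX X d hX' (inDeg_one i hd)⟩
  obtain ⟨n, hn⟩ := hK X hX'
  exact ⟨n, IsSum.mono (fun Y ⟨d, hY, hd⟩ => ⟨d, hY, inDeg_of_one hind i hY hd⟩) n X hn⟩

variable (R s) in
/-- the truncation triangles of one realisation lift. -/
def LiftsOne (i : I) : Prop :=
  ∀ M : T, ∃ (A B : T) (f : A ⟶ M) (g : M ⟶ B) (k : B ⟶ A⟦(1 : ℤ)⟧),
    Triangle.mk f g k ∈ distTriang T ∧ (s i).le 0 ((R i).obj A) ∧ (s i).ge 1 ((R i).obj B)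

theorem one_iff_lifts (h : Setup R s 𝒞 F) (i : I) :
    (∃ t : TStructure T, NonDegenerate t ∧ TensorExact t ∧ TExact t (s i) (R i)) ↔
      (R i).ReflectsIsomorphisms ∧ LiftsOne R s i := by
  obtain ⟨-, hone⟩ := PC.idem_of_scalar R F h.scalar i (h.unit_ne i)
  have key := (TS.main (R := fun _ : PUnit.{w + 1} => R i) (s := fun _ => s i) hone
    (fun _ => h.unit_ne i) (fun _ => h.bounded i) (fun _ => h.tensorExact i)).out 0 3
  constructor
  · rintro ⟨t, h1, h2, h3⟩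
    have h0 : ∃ t : TStructure T, TS.NonDegenerate t ∧ TS.TensorExact t ∧
      ∀ _ : PUnit.{w + 1}, TS.TExact t (s i) (R i) := ⟨t, h1, h2, fun _ => h3⟩
    obtain ⟨h4, h5⟩ := key.1 h0
    refine ⟨h4 ⟨⟩, fun M => ?_⟩
    obtain ⟨A, B, f, g, k, hT, hA, hB⟩ := h5 M
    exact ⟨A, B, f, g, k, hT, hA ⟨⟩, hB ⟨⟩⟩
  · rintro ⟨h4, h5⟩
    have h0 : (∀ _ : PUnit.{w + 1}, (R i).ReflectsIsomorphisms) ∧
        ∀ M : T, TS.LiftsAt (fun _ : PUnit.{w + 1} => R i) (fun _ => s i) 0 M := by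
      refine ⟨fun _ => h4, fun M => ?_⟩
      obtain ⟨A, B, f, g, k, hT, hA, hB⟩ := h5 M
      exact ⟨A, B, f, g, k, hT, fun _ => hA, fun _ => hB⟩
    obtain ⟨t, h1, h2, h3⟩ := key.2 h0
    exact ⟨t, h1, h2, h3 ⟨⟩⟩

theorem all_of_t (h : Setup R s 𝒞 F) (hL : Lefschetz R s 𝒞) (hind : Indep R s 𝒞)
    (i : I) (t : TStructure T) (h1 : NonDegenerate t) (h2 : TensorExact t)
    (h3 : TExact t (s i) (R i)) (j : I) :
    (R j).ReflectsIsomorphisms ∧
    (∀ (n : ℤ) (X : T), (t.le n X ↔ (s j).le n ((R j).obj X)) ∧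
      (t.ge n X ↔ (s j).ge n ((R j).obj X))) ∧
    ∀ m n : ℤ, Nonempty (t.truncGELE m n ⋙ R j ≅ R j ⋙ (s j).truncGELE m n) := by
  have hI : Nonempty I := ⟨i⟩
  obtain ⟨-, hone⟩ := PC.idem_of_scalar R F h.scalar i (h.unit_ne i)
  obtain ⟨t', h1', h2', h3'⟩ := all_of_one h hL hind ⟨i, t, h1, h2, h3⟩
  -- both are the inverse image of `s i`
  have e1 := ((TS.main (R := fun _ : PUnit.{w + 1} => R i) (s := fun _ => s i) hone
    (fun _ => h.unit_ne i) (fun _ => h.bounded i) (fun _ => h.tensorExact i)).out 0 2).1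
    (show ∃ t : TStructure T, TS.NonDegenerate t ∧ TS.TensorExact t ∧
      ∀ _ : PUnit.{w + 1}, TS.TExact t (s i) (R i) from ⟨t, h1, h2, fun _ => h3⟩)
  obtain ⟨t₀, -, h5, -⟩ := e1
  have ht : t = t₀ := h5 t ⟨h1, TS.TensorExact.heart h2, fun _ => h3⟩
  have ht' : t' = t₀ := h5 t' ⟨h1', TS.TensorExact.heart h2', fun _ => h3' i⟩
  have htt : t' = t := ht'.trans ht.symm
  subst htt
  have hmot : TS.Motivic R s t' := ⟨h1', TS.TensorExact.heart h2', h3'⟩
  have hz := hmot.isZero hone h.unit_ne j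
  exact ⟨TS.reflects_of_isZero (R j) hz, fun n X => ⟨hmot.le_iff j hz n X, hmot.ge_iff j hz n X⟩,
    fun m n => nonempty_truncGELE_iso (R j) (h3' j) m n⟩

theorem main (h : Setup R s 𝒞 F) (hL : Lefschetz R s 𝒞) (hind : Indep R s 𝒞) [Nonempty I] :
    List.TFAE [
      ∃ t : TStructure T, NonDegenerate t ∧ TensorExact t ∧ ∀ i, TExact t (s i) (R i),
      ∃ (i : I) (t : TStructure T), NonDegenerate t ∧ TensorExact t ∧ TExact t (s i) (R i),
      ∃ i : I, (R i).ReflectsIsomorphisms ∧ LiftsOne R s i] := by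
  tfae_have 1 → 2 := fun ⟨t, h1, h2, h3⟩ => ⟨Classical.arbitrary I, t, h1, h2, h3 _⟩
  tfae_have 2 → 1 := all_of_one h hL hind
  tfae_have 2 ↔ 3 := exists_congr fun i => one_iff_lifts h i
  tfae_finish

end Pool.Agent.H939.PD
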